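import Mathlib
import Pool.Agent.Helper71.SuspDefs
import Pool.Agent.Helper71.SuspHtpy
import Pool.Agent.Helper71.SuspGroup
import Pool.Agent.Helper71.SuspLift
import Pool.Agent.Helper71.SuspMain

/-!
MP_dcced1_gt, negative answer: definitions.
-/

namespace Pool.Agent.Helper38.GS

open Pool.Agent.Helper71.AHtpy SimpleGraph

universe u v w

/-! ### Weak homotopy equivalence -/

/-- A graph map is a weak equivalence if it induces a bijection on `A_0` and on all `A_k`
(`k ≥ 1`) at every base vertex. (The maps on `A_k` always respect the products, see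
`AGrp.map_mul`.) -/
def IsWeakEquiv {V W : Type u} {G : SimpleGraph V} {H : SimpleGraph W} {f : V → W}
    (hf : IsGraphMap G H f) : Prop :=
  Function.Bijective (A0map hf) ∧
    ∀ (k : ℕ) (v : V), 1 ≤ k → Function.Bijective (AGrp.map k hf v)

/-- Two graphs are weakly homotopy equivalent if a finite zigzag of weak equivalences joins
them. -/
inductive WHE : ∀ {V W : Type u}, SimpleGraph V → SimpleGraph W → Prop
  | refl {V : Type u} (G : SimpleGraph V) : WHE G G
  | fwd {V W U : Type u} {G : SimpleGraph V} {H : SimpleGraph W} {K : SimpleGraph U}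
      {f : W → U} (h : WHE G H) (hf : IsGraphMap H K f) (hw : IsWeakEquiv hf) : WHE G K
  | bwd {V W U : Type u} {G : SimpleGraph V} {H : SimpleGraph W} {K : SimpleGraph U}
      {f : U → W} (h : WHE G H) (hf : IsGraphMap K H f) (hw : IsWeakEquiv hf) : WHE G K

/-- The constant map. -/
def cst (k : ℕ) {V : Type u} (G : SimpleGraph V) (x : V) : AMap k G x where
  toFun _ := x
  isMap _ _ _ := Or.inl rfl
  bounded := ⟨0, fun _ _ => rfl⟩

/-- `A_k(G)` is trivial at every base vertex. -/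
def Triv (k : ℕ) {V : Type u} (G : SimpleGraph V) : Prop :=
  ∀ (x : V) (f : AMap k G x), Homotopic f (cst k G x)

/-- `b` can be reached from `a` in at most `l` steps. -/
def RI {V : Type u} (G : SimpleGraph V) : ℕ → V → V → Prop
  | 0, a, b => a = b
  | l + 1, a, b => ∃ c, RI G l a c ∧ Near G c b

/-! ### Stretching, boxes, extension property -/

/-- Rounding with odd factor `2P+1`. -/
def rnd (P : ℕ) (x : ℤ) : ℤ := (x + P) / (2 * P + 1)

/-- Coordinatewise rounding. -/
def rv (P : ℕ) {ι : Type w} (v : ι → ℤ) : ι → ℤ := fun i => rnd P (v i)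

/-- `[0,n]^ι`. -/
def InBox (n : ℤ) {ι : Type w} (v : ι → ℤ) : Prop := ∀ i, 0 ≤ v i ∧ v i ≤ n

/-- The boundary of `[0,n]^ι`. -/
def OnBd (n : ℤ) {ι : Type w} (v : ι → ℤ) : Prop := InBox n v ∧ ∃ i, v i = 0 ∨ v i = n

/-- The interior of `[0,n]^ι`. -/
def Inn (n : ℤ) {ι : Type w} (v : ι → ℤ) : Prop := ∀ i, 0 < v i ∧ v i < n

/-- `f` is a graph map on every facet of `[0,s]^d`. -/
def BdMap {V : Type u} (G : SimpleGraph V) (d s : ℕ) (f : (Fin d → ℤ) → V) : Prop :=
  ∀ u u' : Fin d → ℤ, InBox s u → InBox s u' → (grid (Fin d)).Adj u u' →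
    (∃ i, u i = u' i ∧ (u i = 0 ∨ u i = s)) → Near G (f u) (f u')

/-- Every map of the boundary of a `d`-cube into the vertex set `S` (graph map into `G`) extends
after stretching. -/
def ExtS {V : Type u} (G : SimpleGraph V) (S : Set V) (d : ℕ) : Prop :=
  ∀ s : ℕ, 1 ≤ s → ∀ f : (Fin d → ℤ) → V, (∀ u, OnBd s u → f u ∈ S) → BdMap G d s f →
    ∃ (P : ℕ) (F : (Fin d → ℤ) → V),
      (∀ u, InBox (s * (2 * P + 1) : ℤ) u → F u ∈ S) ∧
      (∀ u u', InBox (s * (2 * P + 1) : ℤ) u → InBox (s * (2 * P + 1) : ℤ) u' →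
        (grid (Fin d)).Adj u u' → Near G (F u) (F u')) ∧
      ∀ u, OnBd (s * (2 * P + 1) : ℤ) u → F u = f (rv P u)

/-- The absolute extension property. -/
def Ext {V : Type u} (G : SimpleGraph V) (d : ℕ) : Prop := ExtS G Set.univ d

/-- A cell of `ℤ^n`: base point and set of directions. -/
abbrev Cell (n : ℕ) := (Fin n → ℤ) × Finset (Fin n)

/-- The points of the cell `c` at scale `t`. -/
def InCell {n : ℕ} (t : ℤ) (c : Cell n) (v : Fin n → ℤ) : Prop :=
  (∀ j ∈ c.2, t * c.1 j ≤ v j ∧ v j ≤ t * c.1 j + t) ∧ ∀ j ∉ c.2, v j = t * c.1 j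

/-- `c'` is a face of `c`. -/
def Face {n : ℕ} (c' c : Cell n) : Prop :=
  c'.2 ⊆ c.2 ∧ (∀ j ∉ c.2, c'.1 j = c.1 j) ∧ (∀ j ∈ c'.2, c'.1 j = c.1 j) ∧
    ∀ j ∈ c.2, j ∉ c'.2 → c'.1 j = c.1 j ∨ c'.1 j = c.1 j + 1

/-- `F` is a graph map with values in `S` on the cell `c` at scale `t`. -/
def GoodOn {V : Type u} (G : SimpleGraph V) {n : ℕ} (t : ℤ) (c : Cell n) (S : Set V)
    (F : (Fin n → ℤ) → V) : Prop :=
  (∀ v, InCell t c v → F v ∈ S) ∧
    ∀ v v', InCell t c v → InCell t c v' → (grid (Fin n)).Adj v v' → Near G (F v) (F v')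

/-! ### Cubes -/

section cubes

variable {ι : Type w} [DecidableEq ι]

/-- Change one coordinate. -/
def flip (A : ι → Bool) (i : ι) : ι → Bool := Function.update A i (!A i)

/-- Graph maps of the cube. -/
def CubeMap {V : Type u} (G : SimpleGraph V) (τ : (ι → Bool) → V) : Prop :=
  ∀ A i, Near G (τ A) (τ (flip A i))

/-- The facet `x_i = c` of the `(k+1)`-cube `(T0, T1)`. -/
def fac {V : Type u} (T0 T1 : (ι → Bool) → V) (i : ι) (c : Bool) (A : ι → Bool) : V :=
  if A i then T1 (Function.update A i c) else T0 (Function.update A i c)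

/-- The unit cube of `f` at `p`. -/
def cube {k : ℕ} (e : ι ≃ Fin k) {V : Type u} (f : (Fin k → ℤ) → V) (p : Fin k → ℤ)
    (A : ι → Bool) : V :=
  f (fun j => p j + if A (e.symm j) then 1 else 0)

/-- Automorphisms of the cube: permute the coordinates, then reflect. -/
def act (ν : Equiv.Perm ι) (R : ι → Bool) (A : ι → Bool) : ι → Bool :=
  fun j => xor (A (ν.symm j)) (R j)

/-- `A` lies in the face `φ`. -/
def Matches (φ : ι → Option Bool) (A : ι → Bool) : Prop := ∀ i c, φ i = some c → A i = c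

end cubes

/-! ### Hairs -/

/-- The vertices of `G` with hairs. -/
inductive Hair (B : Type u) : Type u
  | base (b : B) : Hair B
  | hair (d s : ℕ) (f : (Fin d → ℤ) → Hair B) (v : Fin d → ℤ) : Hair B

/-- (Old) neighbours. -/
def nb {B : Type u} (G : SimpleGraph B) (k P : ℕ) : Hair B → Hair B → Prop
  | .base a, y => ∃ b, y = .base b ∧ G.Adj a b
  | .hair d s f v, y =>
    d ≤ k ∧ 1 ≤ s ∧ Inn (s * (2 * P + 1) : ℤ) v ∧
    (∀ u u' : Fin d → ℤ, InBox s u → InBox s u' → (grid (Fin d)).Adj u u' →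
      (∃ i, u i = u' i ∧ (u i = 0 ∨ u i = s)) →
      f u = f u' ∨ nb G k P (f u) (f u') ∨ nb G k P (f u') (f u)) ∧
    ((∃ v', y = .hair d s f v' ∧ Inn (s * (2 * P + 1) : ℤ) v' ∧ (grid (Fin d)).Adj v v') ∨
      ∃ u, OnBd (s * (2 * P + 1) : ℤ) u ∧ (grid (Fin d)).Adj v u ∧ y = f (rv P u))

/-- The graph `G` with hairs of dimension `≤ k` and stretching factor `2P+1`. -/
def HG {B : Type u} (G : SimpleGraph B) (k P : ℕ) : SimpleGraph (Hair B) :=
  SimpleGraph.fromRel (nb G k P)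

/-- Hereditarily over `S`. -/
def HSub {B : Type u} (S : Set B) : Hair B → Prop
  | .base b => b ∈ S
  | .hair _ _ f _ => ∀ u, HSub S (f u)

/-- The retraction to the base. -/
def ret {B : Type u} (P : ℕ) : Hair B → B
  | .base b => b
  | .hair _ _ f v => ret P (f (rv P v))

/-- Vertices of `Σ_n G` with label in `S` (or poles). -/
def SSet {V : Type u} (n : ℕ) (S : Set V) : Set (Quotient (suspSetoid V n)) :=
  {q | lev q = 0 ∨ lev q = n ∨ lab q ∈ S}

/-! ### The five block cube -/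

/-- The coordinates: five blocks of size `g`. -/
abbrev Co (g : ℕ) := Fin 5 × Fin g

/-- The vertices of the cube. -/
abbrev Qu (g : ℕ) := Co g → Bool

variable {g : ℕ}

/-- Size of the block `t` of `A`. -/
def cnt (A : Qu g) (t : Fin 5) : ℕ := (Finset.univ.filter fun x : Fin g => A (t, x) = true).card

/-- Largest block size. -/
def mx (A : Qu g) : ℕ := Finset.univ.sup (cnt A)

/-- Complement. -/
def cpl (A : Qu g) : Qu g := fun i => !A i

/-- At depth `r` from both poles. -/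
def Dp (r : ℕ) (A : Qu g) : Prop := r ≤ mx A ∧ r ≤ mx (cpl A)

/-- The level of `σ`. -/
def lv (A : Qu g) : ℕ := min (mx A - 2) 3 + 3 - min (mx (cpl A) - 2) 3

/-- Closure: blocks of size `≥ 3` are filled. -/
def cl (A : Qu g) : Qu g := fun i => if cnt A i.1 ≤ 2 then A i else true

/-- The type of colours. -/
abbrev KV (g : ℕ) := Fin 3 × Qu g

/-- The colour of `A`. -/
def col (A : Qu g) : KV g :=
  if mx A ≤ 5 then (0, cl A) else if mx (cpl A) ≤ 5 then (2, cpl (cl (cpl A))) else (1, A)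

/-- The base graph. -/
def G0 (g : ℕ) : SimpleGraph (KV g) :=
  SimpleGraph.fromRel fun x y => ∃ A i, Dp 3 A ∧ Dp 3 (flip A i) ∧ col A = x ∧ col (flip A i) = y

/-- The rank vector. -/
noncomputable def rk (x : KV g) (t : Fin 5) : ℤ :=
  open Classical in if x.1 = 2 ∨ ¬ ∃ t', 3 ≤ cnt x.2 t' then 3 else min (cnt x.2 t) 3

/-- Duality on the colours. -/
def dual (x : KV g) : KV g := (2 - x.1, cpl x.2)

/-- The graph `W`. -/
abbrev WG (g P : ℕ) : SimpleGraph (Hair (KV g)) := HG (G0 g) (5 * g) P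

/-- The vertices of `Σ_6 W`. -/
abbrev SV (g : ℕ) := Quotient (suspSetoid (Hair (KV g)) 6)

/-- The vertex of colour `col A` at level `l`. -/
def bp (A : Qu g) (l : ℕ) : SV g := pt 6 (Hair.base (col A)) l

/-- The map `σ`. -/
def sig (A : Qu g) : SV g := bp A (lv A)

/-- `A` is contained in one block. -/
def OneBlock (A : Qu g) : Prop := ∃ t, ∀ i, A i = true → i.1 = t

/-- `τ` agrees with `σ` far from the poles. -/
def AliveId (τ : Qu g → SV g) : Prop := ∀ A, Dp 5 A → τ A = bp A 3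

/-- Alive with the pole `0` at the bottom and the pole `6` at the top. -/
def GoodId (τ : Qu g → SV g) : Prop :=
  AliveId τ ∧ (∃ A, OneBlock A ∧ mx A ≤ 2 ∧ lev (τ A) = 0) ∧
    ∃ A, OneBlock A ∧ mx A ≤ 2 ∧ lev (τ (cpl A)) = 6

/-- Good cubes. -/
def Good (τ : Qu g → SV g) : Prop := ∃ (ν : Equiv.Perm (Co g)) (R : Qu g),
  GoodId (fun A => τ (act ν R A))

open Classical in
/-- The indicator of good cubes. -/
noncomputable def gd (τ : Qu g → SV g) : ZMod 2 := if Good τ then 1 else 0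

/-- The base colours of the face `φ`. -/
def GF (φ : Co g → Option Bool) : Set (KV g) :=
  {x | x = (0, fun _ => false) ∨ ∃ A, Matches φ A ∧ Dp 3 A ∧ col A = x}

/-- Labels: a direction, or `0` (stay), `1` (up), `2` (down), `3` (hair). -/
abbrev Lab (g : ℕ) := Co g ⊕ Fin 4

/-- The meaning of the label of `T1` at `A`. -/
def LabSpec (P : ℕ) (T1 : Qu g → SV g) (A : Qu g) : Lab g → Prop
  | .inl i => T1 A = bp (flip A i) 3
  | .inr 0 => T1 A = bp A 3
  | .inr 1 => T1 A = bp A 4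
  | .inr 2 => T1 A = bp A 2
  | .inr 3 => ∃ d s f v, (WG g P).Adj (Hair.hair d s f v) (Hair.base (1, A)) ∧
      T1 A = pt 6 (Hair.hair d s f v) 3

/-- Height and label function of a cube seen from one end. -/
def LocD (P : ℕ) (H : Qu g → ℕ) (c : Qu g → Hair (KV g)) : Prop :=
  ∀ A i, H A ≤ 6 ∧ H A ≤ H (flip A i) + 1 ∧ H (flip A i) ≤ H A + 1 ∧
    (0 < H A → H A < 6 → 0 < H (flip A i) → H (flip A i) < 6 →
      c A = c (flip A i) ∨ (H A = H (flip A i) ∧ (WG g P).Adj (c A) (c (flip A i))))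

/-- `ρ` is a rank function for the colouring `κ`. -/
def RkFun (ρ : KV g → Fin 5 → ℤ) (κ : Qu g → KV g) : Prop :=
  (∀ x y, (G0 g).Adj x y → ∑ t, |ρ x t - ρ y t| ≤ 1) ∧ (∀ x, ∃ t, ρ x t = 3) ∧
    (∀ x t, 0 ≤ ρ x t ∧ ρ x t ≤ 3) ∧ ∀ A, Dp 3 A → ∀ t, ρ (κ A) t = min (cnt A t : ℤ) 3

/-- The first `l` elements of the chain `ch` in the block `t`. -/
def CH (ch : Fin 5 → Fin 5 → Fin g) (t : Fin 5) (l : ℕ) : Qu g :=
  fun i => decide (i.1 = t ∧ ∃ m : Fin 5, m.val < l ∧ ch t m = i.2)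

end Pool.Agent.Helper38.GS
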