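import Pool.Agent.Helper38.GS.Defs

namespace Pool.Agent.Helper38.GS

open Pool.Agent.Helper71.AHtpy SimpleGraph

universe u v w

section

variable {V : Type u} {G : SimpleGraph V} {k : ℕ} {x y : V}

/-- `F = x` as soon as some coordinate is `≥ M` in absolute value. -/
def ValidM (F : AMap k G x) (M : ℕ) : Prop := ∀ z : Fin k → ℤ, (∃ i, (M : ℤ) ≤ |z i|) → F.toFun z = x

theorem exists_validM (F : AMap k G x) : ∃ M, ValidM F M := by
  obtain ⟨N, hN⟩ := F.bounded
  refine ⟨N + 1, fun z ⟨i, hi⟩ => hN z ⟨i, ?_⟩⟩
  push_cast at hi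
  omega

theorem ValidM.mono {F : AMap k G x} {M M' : ℕ} (h : ValidM F M) (hM : M ≤ M') : ValidM F M' := by
  rintro z ⟨i, hi⟩
  exact h z ⟨i, by omega⟩

open Classical in
/-- Change the base point by cutting off outside a big box. -/
noncomputable def cut (F : AMap k G x) (h : Near G x y) (M : ℕ) (hM : ValidM F M) : AMap k G y where
  toFun z := if ∀ i, |z i| ≤ M then F.toFun z else y
  isMap := by
    apply isGraphMap_grid
    intro z z' i hi hne
    have hdiff : ∀ j, |(|z j| - |z' j|)| ≤ 1 := by
      intro j
      by_cases hj : j = i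
      · subst hj
        calc |(|z j| - |z' j|)| ≤ |z j - z' j| := abs_abs_sub_abs_le_abs_sub _ _
          _ ≤ 1 := by rw [hi]; simp
      · rw [hne j hj]; simp
    by_cases h1 : ∀ i, |z i| ≤ M <;> by_cases h2 : ∀ i, |z' i| ≤ M
    · simp only [h1, h2, implies_true, ↓reduceIte]
      apply F.isMap.near
      apply near_grid_of i _ hne
      rw [hi]; simp
    · rw [if_pos h1, if_neg h2]
      push Not at h2
      obtain ⟨j, hj⟩ := h2
      rw [hM z ⟨j, ?_⟩]
      · exact h
      · have := hdiff j
        rw [abs_le] at this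
        omega
    · rw [if_neg h1, if_pos h2]
      push Not at h1
      obtain ⟨j, hj⟩ := h1
      rw [hM z' ⟨j, ?_⟩]
      · exact h.symm
      · have := hdiff j
        rw [abs_le] at this
        omega
    · rw [if_neg h1, if_neg h2]
      exact Near.refl _ _
  bounded := ⟨M, fun z ⟨i, hi⟩ => if_neg (fun h => absurd (h i) (by omega))⟩

theorem cut_step {F F' : AMap k G x} (hs : Step F F') (h : Near G x y) (M : ℕ) (hM : ValidM F M)
    (hM' : ValidM F' M) : Step (cut F h M hM) (cut F' h M hM') := by
  intro z
  show Near G (if ∀ i, |z i| ≤ M then F.toFun z else y) (if ∀ i, |z i| ≤ M then F'.toFun z else y)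
  split_ifs
  · exact hs z
  · exact Near.refl _ _

theorem cut_cut (F : AMap k G x) (h : Near G x y) (M M' : ℕ) (hM : ValidM F M)
    (hM' : ValidM F M') : Step (cut F h M hM) (cut F h M' hM') := by
  intro z
  show Near G (if ∀ i, |z i| ≤ M then F.toFun z else y) (if ∀ i, |z i| ≤ M' then F.toFun z else y)
  split_ifs with h1 h2 h2
  · exact Near.refl _ _
  · push Not at h2
    obtain ⟨j, hj⟩ := h2
    rw [hM' z ⟨j, by omega⟩]
    exact h
  · push Not at h1
    obtain ⟨j, hj⟩ := h1
    rw [hM z ⟨j, by omega⟩]
    exact h.symm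
  · exact Near.refl _ _

theorem triv_at_near (h : Near G x y)
    (hx : ∀ f : AMap k G x, Homotopic f (cst k G x)) (f : AMap k G y) :
    Homotopic f (cst k G y) := by
  obtain ⟨M, hM⟩ := exists_validM f
  set F := cut f h.symm M hM with hF
  have h1 := homotopic_iff.mp (hx F)
  have key : ∀ F' : AMap k G x, Relation.ReflTransGen Step F F' →
      ∀ (M' : ℕ) (hM' : ValidM F' M'), Homotopic f (cut F' h M' hM') := by
    intro F' hF'
    induction hF' with
    | refl =>
      intro M' hM'
      apply Step.homotopic
      intro z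
      show Near G (f.toFun z) (if ∀ i, |z i| ≤ M' then F.toFun z else y)
      split_ifs with h2
      · show Near G (f.toFun z) (if ∀ i, |z i| ≤ M then f.toFun z else x)
        split_ifs with h3
        · exact Near.refl _ _
        · push Not at h3
          obtain ⟨j, hj⟩ := h3
          rw [hM z ⟨j, by omega⟩]
          exact h.symm
      · push Not at h2
        obtain ⟨j, hj⟩ := h2
        have h3 := hM' z ⟨j, by omega⟩
        have h4 : (if ∀ i, |z i| ≤ M then f.toFun z else x) = x := h3
        split_ifs at h4 with h5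
        · rw [h4]; exact h
        · push Not at h5
          obtain ⟨l, hl⟩ := h5
          rw [hM z ⟨l, by omega⟩]
          exact Near.refl _ _
    | @tail A B hAB hst ih =>
      intro M' hM'
      obtain ⟨M'', hM''⟩ := exists_validM A
      have hA : ValidM A (max M' M'') := hM''.mono (le_max_right _ _)
      have hB : ValidM B (max M' M'') := hM'.mono (le_max_left _ _)
      exact ((ih _ hA).trans (cut_step hst h _ hA hB).homotopic).trans
        (cut_cut B h _ _ hB hM').homotopic
  have hc : ValidM (cst k G x) 0 := fun z _ => rfl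
  refine (key _ h1 0 hc).trans (Step.homotopic ?_)
  intro z
  show Near G (if ∀ i, |z i| ≤ ((0 : ℕ) : ℤ) then x else y) y
  split_ifs
  · exact h
  · exact Near.refl _ _

theorem triv_at_change (h : G.Reachable x y)
    (hx : ∀ f : AMap k G x, Homotopic f (cst k G x)) (f : AMap k G y) :
    Homotopic f (cst k G y) := by
  obtain ⟨p⟩ := h
  induction p with
  | nil => exact hx f
  | cons hadj p ih => exact ih (fun f => triv_at_near (Or.inr hadj) hx f) f

end

theorem triv_iff_of_weq {V W : Type u} {G : SimpleGraph V} {H : SimpleGraph W} {f : V → W}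
    (hf : IsGraphMap G H f) (hw : IsWeakEquiv hf) {k : ℕ} (hk : 1 ≤ k) :
    Triv k G ↔ Triv k H := by
  have hcst : ∀ x, AGrp.map k hf x (Quotient.mk _ (cst k G x)) = Quotient.mk _ (cst k H (f x)) := by
    intro x
    show Quotient.mk _ ((cst k G x).push hf) = _
    rfl
  constructor
  · intro h y
    obtain ⟨c, hc⟩ := hw.1.2 (H.connectedComponentMk y)
    induction c using Quot.inductionOn with | _ x =>
    have hr : H.Reachable (f x) y := by
      have hc' : H.connectedComponentMk (f x) = H.connectedComponentMk y := hc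
      exact ConnectedComponent.exact hc'
    intro g
    refine triv_at_change hr ?_ g
    intro g
    obtain ⟨a, ha⟩ := (hw.2 k x hk).2 (Quotient.mk _ g)
    induction a using Quotient.inductionOn with | _ a =>
    have h1 : (Quotient.mk (htpySetoid k G x) a) = Quotient.mk _ (cst k G x) :=
      Quotient.sound (h x a)
    rw [h1, hcst] at ha
    exact Quotient.exact ha.symm
  · intro h x g
    have h1 : AGrp.map k hf x (Quotient.mk _ g) = Quotient.mk _ (cst k H (f x)) :=
      Quotient.sound (h (f x) (g.push hf))
    rw [← hcst] at h1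
    exact Quotient.exact ((hw.2 k x hk).1 h1)

theorem triv_iff_of_whe {V W : Type u} {G : SimpleGraph V} {H : SimpleGraph W} (h : WHE G H)
    {k : ℕ} (hk : 1 ≤ k) : Triv k G ↔ Triv k H := by
  induction h with
  | refl G => exact Iff.rfl
  | fwd h hf hw ih => exact ih.trans (triv_iff_of_weq hf hw hk)
  | bwd h hf hw ih => exact ih.trans (triv_iff_of_weq hf hw hk).symm

end Pool.Agent.Helper38.GS
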